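import Pool.Agent.W429.TCI.C.Stmts
set_option autoImplicit false

/-! TCI-C2: soundness of the symbolic evaluation. -/

namespace Pool.Agent.W140.TCI
open Pool.Agent.W429.TCI.C
open Pool.Agent.Helper805.Nuc.Tens Pool.Agent.Helper805.Nuc.NFun Pool.Agent.Helper805.NucCert

theorem sg2_eq (a b : ℕ) : sg2 a b = (-1) ^ (a * b) := by
  have h2 : ∀ n : ℕ, n % 2 = 0 ∨ n % 2 = 1 := fun n => by omega
  have key : sg2 a b = if (a % 2) * (b % 2) = 1 then -1 else 1 := by
    unfold sg2
    show cond (Nat.beq (a % 2 * (b % 2)) 1) (-1 : ℤ) 1 = _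
    rcases h2 a with ha | ha <;> rcases h2 b with hb | hb <;> rw [ha, hb] <;> rfl
  rw [key]
  rcases h2 a with ha | ha
  · rw [ha, zero_mul, if_neg (by norm_num), Even.neg_one_pow]
    exact (Nat.even_iff.2 ha).mul_right b
  · rcases h2 b with hb | hb
    · rw [hb, mul_zero, if_neg (by norm_num), Even.neg_one_pow]
      exact (Nat.even_iff.2 hb).mul_left a
    · rw [ha, hb, if_pos (by norm_num), Odd.neg_one_pow]
      exact (Nat.odd_iff.2 ha).mul (Nat.odd_iff.2 hb)

section
variable {R : Type} [NonUnitalNonAssocRing R] {P : ℕ → AddSubgroup R} {x z : R}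

/-- the operator pair of a constant -/
structure Cst (P : ℕ → AddSubgroup R) (x z : R) (d : ℕ) (A L : Tri) (u : R) : Prop where
  mem : u ∈ P (d % 2)
  rt : Op P x z A d (fun _ m' => m' * u)
  lf : Op P x z L d (fun e' m' => ((-1 : ℤ) ^ (e' * d)) • (u * m'))

/-- the symbolic element `s` represents `u`, of degree `d` -/
def Rep (P : ℕ → AddSubgroup R) (x z : R) (e : ℕ) (m : R) : SE → R → ℕ → Prop
  | .bad, _, _ => True
  | .c d' A L, u, d => d' = d ∧ Cst P x z d A L u
  | .v d' E, u, d => d' + e = d ∧ u ∈ P (d % 2) ∧ ∀ f, Addi f → ev x z f E e m = f (e + d') u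

variable {e : ℕ} {m : R}

theorem Rep.add {s t : SE} {u w : R} {d : ℕ} (hs : Rep P x z e m s u d) (ht : Rep P x z e m t w d) :
    Rep P x z e m (SE.add s t) (u + w) d := by
  cases s with
  | bad => trivial
  | c ds A L =>
    cases t with
    | bad => trivial
    | v dt E => trivial
    | c dt A' L' =>
      obtain ⟨rfl, cs⟩ := hs
      obtain ⟨rfl, ct⟩ := ht
      have h : SE.add (.c dt A L) (.c dt A' L') = .c dt (Tri.add A A') (Tri.add L L') := by
        show cond (Nat.beq dt dt) _ _ = _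
        rw [show Nat.beq dt dt = true from Nat.beq_refl dt]; rfl
      rw [h]
      refine ⟨rfl, AddSubgroup.add_mem _ cs.mem ct.mem, ?_, ?_⟩
      · exact (cs.rt.add ct.rt).congr rfl (fun _ _ _ => (mul_add _ _ _).symm)
      · refine (cs.lf.add ct.lf).congr rfl (fun e' m' _ => ?_)
        simp only [add_mul, smul_add]
  | v ds E =>
    cases t with
    | bad => trivial
    | c dt A L => trivial
    | v dt E' =>
      obtain ⟨hd, hu, hE⟩ := hs
      obtain ⟨hd', hw, hE'⟩ := ht
      have hdd : ds = dt := by omega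
      subst hdd
      have h : SE.add (.v ds E) (.v ds E') = .v ds (Tri.add E E') := by
        show cond (Nat.beq ds ds) _ _ = _
        rw [show Nat.beq ds ds = true from Nat.beq_refl ds]; rfl
      rw [h]
      refine ⟨hd, AddSubgroup.add_mem _ hu hw, fun f hf => ?_⟩
      rw [ev_add, hE f hf, hE' f hf, hf]

theorem Rep.add' {s t : SE} {u w : R} {d d' : ℕ} (hs : Rep P x z e m s u d)
    (ht : Rep P x z e m t w d') : ∃ d'', Rep P x z e m (SE.add s t) (u + w) d'' := by
  by_cases hd : d = d'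
  · subst hd
    exact ⟨d, hs.add ht⟩
  · refine ⟨d, ?_⟩
    have hbad : SE.add s t = .bad := by
      cases s with
      | bad => rfl
      | c ds A L =>
        cases t with
        | bad => rfl
        | v dt E => rfl
        | c dt A' L' =>
          obtain ⟨rfl, cs⟩ := hs
          obtain ⟨rfl, ct⟩ := ht
          show cond (Nat.beq ds dt) _ _ = _
          have : Nat.beq ds dt = false := by
            rw [Bool.eq_false_iff]
            intro h
            exact hd (Nat.eq_of_beq_eq_true h)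
          rw [this]; rfl
      | v ds E =>
        cases t with
        | bad => rfl
        | c dt A L => rfl
        | v dt E' =>
          obtain ⟨hd1, _, _⟩ := hs
          obtain ⟨hd2, _, _⟩ := ht
          show cond (Nat.beq ds dt) _ _ = _
          have : Nat.beq ds dt = false := by
            rw [Bool.eq_false_iff]
            intro h
            have := Nat.eq_of_beq_eq_true h
            omega
          rw [this]; rfl
    rw [hbad]
    trivial

theorem Rep.smul {s : SE} {u : R} {d : ℕ} (k : ℤ) (hs : Rep P x z e m s u d) :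
    Rep P x z e m (SE.smul k s) (k • u) d := by
  cases s with
  | bad => trivial
  | c ds A L =>
    obtain ⟨rfl, cs⟩ := hs
    refine ⟨rfl, AddSubgroup.zsmul_mem _ cs.mem k, ?_, ?_⟩
    · exact (cs.rt.smul k).congr rfl (fun _ _ _ => (mul_smul_comm _ _ _).symm)
    · refine (cs.lf.smul k).congr rfl (fun e' m' _ => ?_)
      rw [smul_mul_assoc, smul_comm]
  | v ds E =>
    obtain ⟨hd, hu, hE⟩ := hs
    refine ⟨hd, AddSubgroup.zsmul_mem _ hu k, fun f hf => ?_⟩
    rw [ev_smul, hE f hf, hf.smul]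

theorem Rep.par {s : SE} {u : R} {d : ℕ} (hs : Rep P x z e m s u d) (hb : s ≠ .bad) :
    SE.par e s = d := by
  cases s with
  | bad => exact absurd rfl hb
  | c ds A L => exact hs.1
  | v ds E => exact hs.1

/-- the associator operator -/
theorem opA {d d' : ℕ} {A L A' L' : Tri} {u w : R} (hu : Cst P x z d A L u)
    (hw : Cst P x z d' A' L' w) :
    Op P x z (SE.aop d d' L A') (d + d') (fun e m => ((-1 : ℤ) ^ (e * d)) • as u m w) := by
  unfold SE.aop
  refine ((hu.lf.mul hw.rt).add (((hw.rt.mul hu.lf).smul (Int.neg (sg2 d d'))).congr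
    (add_comm _ _) (fun _ _ _ => rfl))).congr rfl ?_
  intro e m _
  rw [show Int.neg (sg2 d d') = -(sg2 d d') from rfl, sg2_eq, add_mul, pow_add, mul_comm d' d]
  obtain h | h := neg_one_pow_eq_or ℤ (d * d') <;> rw [h] <;> unfold as <;>
    simp only [smul_mul_assoc, smul_sub, neg_smul, smul_smul, mul_one, mul_neg, neg_mul, one_smul,
      neg_neg, one_mul] <;>
    abel

variable (hP : SuperAlt R P)
include hP

/-- product of constants -/
theorem cst_mul {d d' : ℕ} {A L A' L' : Tri} {u w : R} (hu : Cst P x z d A L u)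
    (hw : Cst P x z d' A' L' w) :
    Cst P x z (d + d') (Tri.add (Tri.mul A' A) (SE.aop d d' L A'))
      (Tri.add (Tri.smul (sg2 d d') (Tri.mul L L')) (Tri.smul (Int.negSucc 0) (SE.aop d d' L A')))
      (u * w) := by
  have hA := opA hu hw
  refine ⟨mul_mem' hP hu.mem hw.mem, ?_, ?_⟩
  · refine ((hu.rt.mul hw.rt).add hA).congr rfl ?_
    intro e m hm
    have h1 := left' hP hm hu.mem hw.mem
    show m * u * w + ((-1 : ℤ) ^ (e * d)) • as u m w = m * (u * w)
    have h2 : as m u w = m * u * w - m * (u * w) := rfl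
    rw [h2, sub_eq_iff_eq_add] at h1
    rw [h1]; abel
  · refine ((((hw.lf.mul hu.lf).smul (sg2 d d')).congr (add_comm _ _) (fun _ _ _ => rfl)).add
      (hA.smul (Int.negSucc 0))).congr rfl ?_
    intro e m hm
    have h1 := right' hP hu.mem hw.mem hm
    show sg2 d d' • ((-1 : ℤ) ^ ((e + d') * d)) • (u * (((-1 : ℤ) ^ (e * d')) • (w * m))) +
        (-1 : ℤ) • ((-1 : ℤ) ^ (e * d)) • as u m w =
      ((-1 : ℤ) ^ (e * (d + d'))) • ((u * w) * m)
    have h2 : as u w m = u * w * m - u * (w * m) := rfl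
    rw [h2, sub_eq_iff_eq_add] at h1
    rw [h1, sg2_eq, add_mul, mul_add, pow_add, pow_add, mul_comm d' d, mul_comm d' e]
    obtain h | h := neg_one_pow_eq_or ℤ (d * d') <;> obtain h' | h' := neg_one_pow_eq_or ℤ (e * d') <;>
    obtain h'' | h'' := neg_one_pow_eq_or ℤ (e * d) <;> rw [h, h', h''] <;> simp <;> abel

/-- the relation of the two associator operators -/
theorem assoc_rel {d d' e : ℕ} {u w m : R} (hu : u ∈ P (d % 2)) (hw : w ∈ P (d' % 2))
    (hm : m ∈ P (e % 2)) :
    ((-1 : ℤ) ^ (e * d)) • as u m w + ((-1 : ℤ) ^ (d * d')) • ((-1 : ℤ) ^ (e * d')) • as w m u = 0 := by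
  have h1 := left' hP hu hm hw
  have h2 := right' hP hm hu hw
  have h3 := left' hP hm hw hu
  rw [h1, h2, h3, mul_comm d e]
  obtain h | h := neg_one_pow_eq_or ℤ (d * d') <;> obtain h' | h' := neg_one_pow_eq_or ℤ (e * d') <;>
    obtain h'' | h'' := neg_one_pow_eq_or ℤ (e * d) <;> rw [h, h', h''] <;> simp

/-- super commutator of constants -/
theorem cst_br {d d' : ℕ} {A L A' L' : Tri} {u w : R} (hu : Cst P x z d A L u)
    (hw : Cst P x z d' A' L' w) :
    Cst P x z (d + d') (Tri.add (Tri.add (Tri.mul A' A) (Tri.smul (Int.neg (sg2 d d')) (Tri.mul A A')))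
        (Tri.smul (Int.ofNat 2) (SE.aop d d' L A')))
      (Tri.add (Tri.add (Tri.smul (sg2 d d') (Tri.mul L L')) (Tri.smul (Int.negSucc 0) (Tri.mul L' L)))
        (Tri.smul (Int.negSucc 1) (SE.aop d d' L A')))
      (u * w - ((-1 : ℤ) ^ (d * d')) • (w * u)) := by
  have hA := opA hu hw
  have hmem : w * u ∈ P ((d + d') % 2) := by
    rw [add_comm]; exact mul_mem' hP hw.mem hu.mem
  refine ⟨AddSubgroup.sub_mem _ (mul_mem' hP hu.mem hw.mem) (AddSubgroup.zsmul_mem _ hmem _), ?_, ?_⟩
  · refine (((hu.rt.mul hw.rt).add (((hw.rt.mul hu.rt).smul (Int.neg (sg2 d d'))).congr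
      (add_comm _ _) (fun _ _ _ => rfl))).add (hA.smul (Int.ofNat 2))).congr rfl ?_
    intro e m hm
    have h1 := left' hP hm hu.mem hw.mem
    have h1' := left' hP hm hw.mem hu.mem
    have h3 := assoc_rel hP hu.mem hw.mem hm
    show m * u * w + (-(sg2 d d')) • (m * w * u) + (2 : ℤ) • (((-1 : ℤ) ^ (e * d)) • as u m w) =
      m * (u * w - ((-1 : ℤ) ^ (d * d')) • (w * u))
    have h2 : as m u w = m * u * w - m * (u * w) := rfl
    have h2' : as m w u = m * w * u - m * (w * u) := rfl
    rw [h2, sub_eq_iff_eq_add] at h1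
    rw [h2', sub_eq_iff_eq_add] at h1'
    rw [h1, h1', sg2_eq, mul_sub, mul_smul_comm]
    have h4 : ((-1 : ℤ) ^ (e * d)) • as u m w =
        -(((-1 : ℤ) ^ (d * d')) • ((-1 : ℤ) ^ (e * d')) • as w m u) := eq_neg_of_add_eq_zero_left h3
    rw [two_zsmul]
    nth_rewrite 3 [h4]
    obtain h | h := neg_one_pow_eq_or ℤ (d * d') <;> rw [h] <;> simp <;> abel
  · refine (((((hw.lf.mul hu.lf).smul (sg2 d d')).congr (add_comm _ _) (fun _ _ _ => rfl)).add
      ((hu.lf.mul hw.lf).smul (Int.negSucc 0))).add (hA.smul (Int.negSucc 1))).congr rfl ?_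
    intro e m hm
    have h1 := right' hP hu.mem hw.mem hm
    have h1' := right' hP hw.mem hu.mem hm
    have h3 := assoc_rel hP hu.mem hw.mem hm
    show sg2 d d' • ((-1 : ℤ) ^ ((e + d') * d)) • (u * (((-1 : ℤ) ^ (e * d')) • (w * m))) +
        (-1 : ℤ) • ((-1 : ℤ) ^ ((e + d) * d')) • (w * (((-1 : ℤ) ^ (e * d)) • (u * m))) +
        (-2 : ℤ) • ((-1 : ℤ) ^ (e * d)) • as u m w =
      ((-1 : ℤ) ^ (e * (d + d'))) • ((u * w - ((-1 : ℤ) ^ (d * d')) • (w * u)) * m)
    have h2 : as u w m = u * w * m - u * (w * m) := rfl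
    have h2' : as w u m = w * u * m - w * (u * m) := rfl
    rw [h2, sub_eq_iff_eq_add] at h1
    rw [h2', sub_eq_iff_eq_add] at h1'
    have h4 : ((-1 : ℤ) ^ (e * d)) • as u m w =
        -(((-1 : ℤ) ^ (d * d')) • ((-1 : ℤ) ^ (e * d')) • as w m u) := eq_neg_of_add_eq_zero_left h3
    have h5 : (-2 : ℤ) • ((-1 : ℤ) ^ (e * d)) • as u m w =
        (-1 : ℤ) • ((-1 : ℤ) ^ (e * d)) • as u m w +
          ((-1 : ℤ) ^ (d * d')) • ((-1 : ℤ) ^ (e * d')) • as w m u := by
      rw [show (-2 : ℤ) = -1 + -1 by norm_num, add_smul]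
      nth_rewrite 2 [h4]
      simp
    rw [h5, sub_mul, smul_mul_assoc, h1, h1', sg2_eq, add_mul, add_mul, mul_add, pow_add, pow_add,
      pow_add, mul_comm d' d, mul_comm d' e, mul_comm d e]
    obtain h | h := neg_one_pow_eq_or ℤ (d * d') <;> obtain h' | h' := neg_one_pow_eq_or ℤ (e * d') <;>
    obtain h'' | h'' := neg_one_pow_eq_or ℤ (e * d) <;> rw [h, h', h''] <;> simp <;> abel

/-- super Jordan product of constants -/
theorem cst_jo {d d' : ℕ} {A L A' L' : Tri} {u w : R} (hu : Cst P x z d A L u)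
    (hw : Cst P x z d' A' L' w) :
    Cst P x z (d + d') (Tri.add (Tri.mul A' A) (Tri.smul (sg2 d d') (Tri.mul A A')))
      (Tri.add (Tri.smul (sg2 d d') (Tri.mul L L')) (Tri.mul L' L))
      (u * w + ((-1 : ℤ) ^ (d * d')) • (w * u)) := by
  have hmem : w * u ∈ P ((d + d') % 2) := by
    rw [add_comm]; exact mul_mem' hP hw.mem hu.mem
  refine ⟨AddSubgroup.add_mem _ (mul_mem' hP hu.mem hw.mem) (AddSubgroup.zsmul_mem _ hmem _), ?_, ?_⟩
  · refine ((hu.rt.mul hw.rt).add (((hw.rt.mul hu.rt).smul (sg2 d d')).congr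
      (add_comm _ _) (fun _ _ _ => rfl))).congr rfl ?_
    intro e m hm
    have h1 := left' hP hm hu.mem hw.mem
    have h1' := left' hP hm hw.mem hu.mem
    have h3 := assoc_rel hP hu.mem hw.mem hm
    show m * u * w + (sg2 d d') • (m * w * u) = m * (u * w + ((-1 : ℤ) ^ (d * d')) • (w * u))
    have h2 : as m u w = m * u * w - m * (u * w) := rfl
    have h2' : as m w u = m * w * u - m * (w * u) := rfl
    rw [h2, sub_eq_iff_eq_add] at h1
    rw [h2', sub_eq_iff_eq_add] at h1'
    have h4 : ((-1 : ℤ) ^ (e * d)) • as u m w =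
        -(((-1 : ℤ) ^ (d * d')) • ((-1 : ℤ) ^ (e * d')) • as w m u) := eq_neg_of_add_eq_zero_left h3
    rw [h1, h1', sg2_eq, mul_add, mul_smul_comm, h4]
    obtain h | h := neg_one_pow_eq_or ℤ (d * d') <;> rw [h] <;> simp <;> abel
  · refine ((((hw.lf.mul hu.lf).smul (sg2 d d')).congr (add_comm _ _) (fun _ _ _ => rfl)).add
      (hu.lf.mul hw.lf)).congr rfl ?_
    intro e m hm
    have h1 := right' hP hu.mem hw.mem hm
    have h1' := right' hP hw.mem hu.mem hm
    have h3 := assoc_rel hP hu.mem hw.mem hm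
    show sg2 d d' • ((-1 : ℤ) ^ ((e + d') * d)) • (u * (((-1 : ℤ) ^ (e * d')) • (w * m))) +
        ((-1 : ℤ) ^ ((e + d) * d')) • (w * (((-1 : ℤ) ^ (e * d)) • (u * m))) =
      ((-1 : ℤ) ^ (e * (d + d'))) • ((u * w + ((-1 : ℤ) ^ (d * d')) • (w * u)) * m)
    have h2 : as u w m = u * w * m - u * (w * m) := rfl
    have h2' : as w u m = w * u * m - w * (u * m) := rfl
    rw [h2, sub_eq_iff_eq_add] at h1
    rw [h2', sub_eq_iff_eq_add] at h1'
    have h4 : ((-1 : ℤ) ^ (e * d)) • as u m w =
        -(((-1 : ℤ) ^ (d * d')) • ((-1 : ℤ) ^ (e * d')) • as w m u) := eq_neg_of_add_eq_zero_left h3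
    have hX : as u m w =
        -(((-1 : ℤ) ^ (e * d)) • ((-1 : ℤ) ^ (d * d')) • ((-1 : ℤ) ^ (e * d')) • as w m u) := by
      have h5 : ((-1 : ℤ) ^ (e * d)) • ((-1 : ℤ) ^ (e * d)) • as u m w = as u m w := by
        rw [smul_smul, ← mul_pow]; simp
      rw [← h5, h4, smul_neg]
    rw [add_mul (u * w), smul_mul_assoc, h1, h1', hX, sg2_eq, add_mul, add_mul, mul_add, pow_add,
      pow_add, pow_add, mul_comm d' d, mul_comm d' e, mul_comm d e]
    obtain h | h := neg_one_pow_eq_or ℤ (d * d') <;> obtain h' | h' := neg_one_pow_eq_or ℤ (e * d') <;>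
    obtain h'' | h'' := neg_one_pow_eq_or ℤ (e * d) <;> rw [h, h', h''] <;> simp <;> abel


theorem Rep.mul {s t : SE} {u w : R} {d d' : ℕ} (hs : Rep P x z e m s u d)
    (ht : Rep P x z e m t w d') : Rep P x z e m (SE.mul e s t) (u * w) (d + d') := by
  cases s with
  | bad => trivial
  | c ds A L =>
    obtain ⟨rfl, cs⟩ := hs
    cases t with
    | bad => trivial
    | c dt A' L' =>
      obtain ⟨rfl, ct⟩ := ht
      exact ⟨rfl, cst_mul hP cs ct⟩
    | v dt E =>
      obtain ⟨hd', hw, hE⟩ := ht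
      show Rep P x z e m (.v (ds + dt) (Tri.smul (sg2 (e + dt) ds) (Tri.mul L E))) _ _
      refine ⟨by omega, mul_mem' hP cs.mem hw, fun f hf => ?_⟩
      have hw' : w ∈ P ((e + dt) % 2) := by rw [add_comm e dt, hd']; exact hw
      rw [ev_smul, ev_mul, hE _ (ev_addi x z hf L), cs.lf.eval f hf _ _ hw', hf.smul, sg2_eq,
        smul_smul, ← mul_pow]
      have e1 : e + dt + ds = e + (ds + dt) := by omega
      rw [e1]
      simp
  | v ds E =>
    obtain ⟨hd, hu, hE⟩ := hs
    cases t with
    | bad => trivial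
    | v dt E' => trivial
    | c dt A' L' =>
      obtain ⟨rfl, ct⟩ := ht
      show Rep P x z e m (.v (ds + dt) (Tri.mul A' E)) _ _
      refine ⟨by omega, mul_mem' hP hu ct.mem, fun f hf => ?_⟩
      have hu' : u ∈ P ((e + ds) % 2) := by rw [add_comm e ds, hd]; exact hu
      rw [ev_mul, hE _ (ev_addi x z hf A'), ct.rt.eval f hf _ _ hu', add_assoc]

omit hP in
theorem mul_bad_left (t : SE) : SE.mul e .bad t = .bad := rfl
omit hP in
theorem mul_bad_right (s : SE) : SE.mul e s .bad = .bad := by cases s <;> rfl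
omit hP in
theorem add_bad_left (t : SE) : SE.add .bad t = .bad := rfl

theorem Rep.brg {s t : SE} {u w : R} {d d' : ℕ} (hs : Rep P x z e m s u d)
    (ht : Rep P x z e m t w d') :
    Rep P x z e m (SE.brg e s t) (u * w - ((-1 : ℤ) ^ (d * d')) • (w * u)) (d + d') := by
  by_cases hb : s = .bad
  · subst hb; trivial
  by_cases hb' : t = .bad
  · subst hb'
    unfold SE.brg
    rw [mul_bad_right, add_bad_left]
    trivial
  unfold SE.brg
  rw [hs.par hb, ht.par hb', show Int.neg (sg2 d d') = -(sg2 d d') from rfl, sg2_eq]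
  have h2 := (ht.mul hP hs).smul (-((-1 : ℤ) ^ (d * d')))
  rw [add_comm d' d] at h2
  have h := (hs.mul hP ht).add h2
  rwa [neg_smul, ← sub_eq_add_neg] at h

theorem Rep.jog {s t : SE} {u w : R} {d d' : ℕ} (hs : Rep P x z e m s u d)
    (ht : Rep P x z e m t w d') :
    Rep P x z e m (SE.jog e s t) (u * w + ((-1 : ℤ) ^ (d * d')) • (w * u)) (d + d') := by
  by_cases hb : s = .bad
  · subst hb; trivial
  by_cases hb' : t = .bad
  · subst hb'
    unfold SE.jog
    rw [mul_bad_right, add_bad_left]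
    trivial
  unfold SE.jog
  rw [hs.par hb, ht.par hb', sg2_eq]
  have h2 := (ht.mul hP hs).smul ((-1 : ℤ) ^ (d * d'))
  rw [add_comm d' d] at h2
  exact (hs.mul hP ht).add h2

theorem Rep.br {s t : SE} {u w : R} {d d' : ℕ} (hs : Rep P x z e m s u d)
    (ht : Rep P x z e m t w d') :
    Rep P x z e m (SE.br e s t) (u * w - ((-1 : ℤ) ^ (d * d')) • (w * u)) (d + d') := by
  cases s with
  | bad => trivial
  | v ds E => exact hs.brg hP ht
  | c ds A L =>
    cases t with
    | bad => trivial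
    | v dt E => exact hs.brg hP ht
    | c dt A' L' =>
      obtain ⟨rfl, cs⟩ := hs
      obtain ⟨rfl, ct⟩ := ht
      exact ⟨rfl, cst_br hP cs ct⟩

theorem Rep.jo {s t : SE} {u w : R} {d d' : ℕ} (hs : Rep P x z e m s u d)
    (ht : Rep P x z e m t w d') :
    Rep P x z e m (SE.jo e s t) (u * w + ((-1 : ℤ) ^ (d * d')) • (w * u)) (d + d') := by
  cases s with
  | bad => trivial
  | v ds E => exact hs.jog hP ht
  | c ds A L =>
    cases t with
    | bad => trivial
    | v dt E => exact hs.jog hP ht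
    | c dt A' L' =>
      obtain ⟨rfl, cs⟩ := hs
      obtain ⟨rfl, ct⟩ := ht
      exact ⟨rfl, cst_jo hP cs ct⟩

theorem Rep.as {s t r : SE} {u w v : R} {d d' d'' : ℕ} (hs : Rep P x z e m s u d)
    (ht : Rep P x z e m t w d') (hr : Rep P x z e m r v d'') :
    Rep P x z e m (SE.as e s t r) (Pool.Agent.Helper805.Nuc.Tens.as u w v) (d + d' + d'') := by
  unfold SE.as
  have h1 := (hs.mul hP ht).mul hP hr
  have h2 := (hs.mul hP (ht.mul hP hr)).smul (Int.negSucc 0)
  rw [← add_assoc] at h2
  have h := h1.add h2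
  have e1 : u * w * v + (Int.negSucc 0) • (u * (w * v)) = Pool.Agent.Helper805.Nuc.Tens.as u w v := by
    show u * w * v + (-1 : ℤ) • (u * (w * v)) = u * w * v - u * (w * v)
    rw [neg_one_zsmul, sub_eq_add_neg]
  rwa [e1] at h

theorem Rep.ev {g : ℕ → SE} {u : ℕ → R} {p : ℕ → ℕ} (hg : ∀ i, Rep P x z e m (g i) (u i) (p i))
    (T : Tm) : Rep P x z e m (SE.ev e g T) (Tm.evS p u T) (Tm.dg p T) := by
  induction T with
  | v i => exact hg i
  | mul a b iha ihb => exact iha.mul hP ihb
  | br a b iha ihb => exact iha.br hP ihb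
  | jo a b iha ihb => exact iha.jo hP ihb
  | as a b c iha ihb ihc => exact Rep.as hP iha ihb ihc

omit hP in
theorem rep_oper (hm : m ∈ P (e % 2)) : Rep P x z e m SE.oper m e := by
  refine ⟨zero_add e, hm, fun f _ => ?_⟩
  show Pool.Agent.Helper805.NucCert.ev x z f (.node 1 .nil .nil .nil .nil) e m = f (e + 0) m
  simp [Pool.Agent.Helper805.NucCert.ev]

theorem rep_cst (hx : x ∈ P 1) (hz : z ∈ P 1) (t : Tr) :
    Rep P x z e m (SE.cst t) (t.val x z) t.deg := by
  have hdeg : ∀ t : Tr, Tr.rec (motive := fun _ => ℕ) 1 1 (fun _ _ a b => Nat.add a b) t = t.deg := by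
    intro t
    induction t with
    | x => rfl
    | z => rfl
    | m a b iha ihb =>
      show Nat.add _ _ = a.deg + b.deg
      rw [iha, ihb]; rfl
  unfold SE.cst
  refine ⟨hdeg t, val_mem hP hx hz t, (RL_sound hP hx hz t).1, (RL_sound hP hx hz t).2⟩

omit hP in
/-- elements of a list or default -/
theorem nth_cases {α : Type} (d : α) (l : List α) (i : ℕ) : nth d l i = d ∨ nth d l i ∈ l := by
  induction l generalizing i with
  | nil => left; rfl
  | cons a l ih =>
    cases i with
    | zero => right; exact List.mem_cons_self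
    | succ k =>
      rcases ih k with h | h
      · left; exact h
      · right; exact List.mem_cons_of_mem _ h

theorem rep_slot (hx : x ∈ P 1) (hz : z ∈ P 1) (hm : m ∈ P (e % 2)) (dict : List (Option Tr)) (i : ℕ) :
    ∃ u : R, Rep P x z e m (nth SE.bad (List.map SE.arg dict) i) u
        (SE.par e (nth SE.bad (List.map SE.arg dict) i)) ∧
      u ∈ P (SE.par e (nth SE.bad (List.map SE.arg dict) i) % 2) := by
  rcases nth_cases SE.bad (List.map SE.arg dict) i with h | h
  · rw [h]
    exact ⟨0, trivial, AddSubgroup.zero_mem _⟩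
  · rw [List.mem_map] at h
    obtain ⟨a, _, ha⟩ := h
    rw [← ha]
    cases a with
    | none =>
      show ∃ u : R, Rep P x z e m SE.oper u (SE.par e SE.oper) ∧ u ∈ P (SE.par e SE.oper % 2)
      have h1 : SE.par e SE.oper = e := by
        show Nat.add 0 e = e
        exact zero_add e
      rw [h1]
      exact ⟨m, rep_oper hm, hm⟩
    | some t =>
      show ∃ u : R, Rep P x z e m (SE.cst t) u (SE.par e (SE.cst t)) ∧
        u ∈ P (SE.par e (SE.cst t) % 2)
      have h0 := rep_cst (e := e) (m := m) hP hx hz t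
      have h1 : SE.par e (SE.cst t) = t.deg := h0.par (by unfold SE.cst; exact fun h => by cases h)
      rw [h1]
      exact ⟨t.val x z, h0, val_mem hP hx hz t⟩

/-- value of a formal sum -/
def Vl (p : ℕ → ℕ) (u : ℕ → R) (L : FS) : R := (L.map (fun q => q.1 • q.2.evS p u)).sum

omit hP in
theorem beq_eq (s : Tm) : ∀ t : Tm, Tm.beq s t = true → s = t := by
  induction s with
  | v i =>
    intro t h
    cases t with
    | v j => rw [Nat.eq_of_beq_eq_true h]
    | mul a b => exact absurd h (by simp [Tm.beq])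
    | br a b => exact absurd h (by simp [Tm.beq])
    | jo a b => exact absurd h (by simp [Tm.beq])
    | as a b c => exact absurd h (by simp [Tm.beq])
  | mul a b iha ihb =>
    intro t h
    cases t with
    | mul c d =>
      have h' : (Tm.beq a c && Tm.beq b d) = true := h
      rw [Bool.and_eq_true] at h'
      rw [iha c h'.1, ihb d h'.2]
    | v j => exact absurd h (by simp [Tm.beq])
    | br a b => exact absurd h (by simp [Tm.beq])
    | jo a b => exact absurd h (by simp [Tm.beq])
    | as a b c => exact absurd h (by simp [Tm.beq])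
  | br a b iha ihb =>
    intro t h
    cases t with
    | br c d =>
      have h' : (Tm.beq a c && Tm.beq b d) = true := h
      rw [Bool.and_eq_true] at h'
      rw [iha c h'.1, ihb d h'.2]
    | v j => exact absurd h (by simp [Tm.beq])
    | mul a b => exact absurd h (by simp [Tm.beq])
    | jo a b => exact absurd h (by simp [Tm.beq])
    | as a b c => exact absurd h (by simp [Tm.beq])
  | jo a b iha ihb =>
    intro t h
    cases t with
    | jo c d =>
      have h' : (Tm.beq a c && Tm.beq b d) = true := h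
      rw [Bool.and_eq_true] at h'
      rw [iha c h'.1, ihb d h'.2]
    | v j => exact absurd h (by simp [Tm.beq])
    | mul a b => exact absurd h (by simp [Tm.beq])
    | br a b => exact absurd h (by simp [Tm.beq])
    | as a b c => exact absurd h (by simp [Tm.beq])
  | as a b c iha ihb ihc =>
    intro t h
    cases t with
    | as a' b' c' =>
      have h' : (Tm.beq a a' && (Tm.beq b b' && Tm.beq c c')) = true := h
      rw [Bool.and_eq_true, Bool.and_eq_true] at h'
      rw [iha a' h'.1, ihb b' h'.2.1, ihc c' h'.2.2]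
    | v j => exact absurd h (by simp [Tm.beq])
    | mul a b => exact absurd h (by simp [Tm.beq])
    | br a b => exact absurd h (by simp [Tm.beq])
    | jo a b => exact absurd h (by simp [Tm.beq])

omit hP in
theorem Vl_insC (p : ℕ → ℕ) (u : ℕ → R) (q : ℤ × Tm) (l : FS) :
    Vl p u (insC q l) = q.1 • q.2.evS p u + Vl p u l := by
  induction l with
  | nil => rfl
  | cons r t ih =>
    have h : insC q (r :: t) = cond (Tm.beq q.2 r.2) ((Int.add q.1 r.1, r.2) :: t) (r :: insC q t) := rfl
    rw [h]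
    cases hb : Tm.beq q.2 r.2 with
    | true =>
      have hq := beq_eq _ _ hb
      show (Int.add q.1 r.1) • r.2.evS p u + Vl p u t = q.1 • q.2.evS p u + (r.1 • r.2.evS p u + Vl p u t)
      rw [hq, show Int.add q.1 r.1 = q.1 + r.1 from rfl, add_smul, add_assoc]
    | false =>
      show r.1 • r.2.evS p u + Vl p u (insC q t) = q.1 • q.2.evS p u + (r.1 • r.2.evS p u + Vl p u t)
      rw [ih]; abel

omit hP in
theorem Vl_collect (p : ℕ → ℕ) (u : ℕ → R) (l : FS) : Vl p u (collect l) = Vl p u l := by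
  induction l with
  | nil => rfl
  | cons q l ih =>
    show Vl p u (insC q (collect l)) = q.1 • q.2.evS p u + Vl p u l
    rw [Vl_insC, ih]

omit hP in
theorem Vl_dropz (p : ℕ → ℕ) (u : ℕ → R) (l : FS) : Vl p u (dropz l) = Vl p u l := by
  induction l with
  | nil => rfl
  | cons q l ih =>
    have h : dropz (q :: l) = cond (Tri.isz q.1) (dropz l) (q :: dropz l) := rfl
    rw [h]
    cases hb : Tri.isz q.1 with
    | true =>
      have hq := Tri.isz_eq hb
      show Vl p u (dropz l) = q.1 • q.2.evS p u + Vl p u l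
      rw [ih, hq, zero_smul, zero_add]
    | false =>
      show q.1 • q.2.evS p u + Vl p u (dropz l) = q.1 • q.2.evS p u + Vl p u l
      rw [ih]

omit hP in
theorem dg_map (p : ℕ → ℕ) (s : ℕ → ℕ) (T : Tm) : (T.map s).dg p = T.dg (fun i => p (s i)) := by
  induction T with
  | v i => rfl
  | mul a b iha ihb => show (a.map s).dg p + (b.map s).dg p = _; rw [iha, ihb]; rfl
  | br a b iha ihb => show (a.map s).dg p + (b.map s).dg p = _; rw [iha, ihb]; rfl
  | jo a b iha ihb => show (a.map s).dg p + (b.map s).dg p = _; rw [iha, ihb]; rfl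
  | as a b c iha ihb ihc =>
    show (a.map s).dg p + (b.map s).dg p + (c.map s).dg p = _; rw [iha, ihb, ihc]; rfl

omit hP in
theorem evS_map (p : ℕ → ℕ) (u : ℕ → R) (s : ℕ → ℕ) (T : Tm) :
    (T.map s).evS p u = T.evS (fun i => p (s i)) (fun i => u (s i)) := by
  induction T with
  | v i => rfl
  | mul a b iha ihb => show (a.map s).evS p u * (b.map s).evS p u = _; rw [iha, ihb]; rfl
  | br a b iha ihb =>
    show (a.map s).evS p u * (b.map s).evS p u - ((-1 : ℤ) ^ ((a.map s).dg p * (b.map s).dg p)) •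
      ((b.map s).evS p u * (a.map s).evS p u) = _
    rw [iha, ihb, dg_map, dg_map]; rfl
  | jo a b iha ihb =>
    show (a.map s).evS p u * (b.map s).evS p u + ((-1 : ℤ) ^ ((a.map s).dg p * (b.map s).dg p)) •
      ((b.map s).evS p u * (a.map s).evS p u) = _
    rw [iha, ihb, dg_map, dg_map]; rfl
  | as a b c iha ihb ihc =>
    show Pool.Agent.Helper805.Nuc.Tens.as ((a.map s).evS p u) ((b.map s).evS p u) ((c.map s).evS p u) = _
    rw [iha, ihb, ihc]; rfl

omit hP in
theorem Vl_subst (g : ℕ → SE) (s : ℕ → ℕ) (L : FS) (u : ℕ → R) :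
    Vl (fun i => SE.par e (g i)) u (subst e g s L) =
      (L.map (fun q => (q.1 * eps (fun i => SE.par e (g (s i))) q.2.lv) •
        q.2.evS (fun i => SE.par e (g (s i))) (fun i => u (s i)))).sum := by
  induction L with
  | nil => rfl
  | cons q L ih =>
    show (Int.mul q.1 (eps (fun i => SE.par e (g (s i))) q.2.lv)) •
      (q.2.map s).evS (fun i => SE.par e (g i)) u + Vl (fun i => SE.par e (g i)) u (subst e g s L) = _
    rw [ih, evS_map]
    rfl

theorem rep_tot {g : ℕ → SE} {u : ℕ → R} {p : ℕ → ℕ} (hg : ∀ i, Rep P x z e m (g i) (u i) (p i))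
    (L : FS) : ∃ d, Rep P x z e m (tot e g L) (Vl p u L) d := by
  induction L with
  | nil => exact ⟨0, trivial⟩
  | cons q L ih =>
    have hq := (Rep.ev hP hg q.2).smul q.1
    cases L with
    | nil =>
      refine ⟨Tm.dg p q.2, ?_⟩
      show Rep P x z e m (SE.smul q.1 (SE.ev e g q.2)) (q.1 • q.2.evS p u + 0) _
      rw [add_zero]
      exact hq
    | cons r L =>
      obtain ⟨d, hd⟩ := ih
      obtain ⟨d'', h⟩ := hq.add' hd
      exact ⟨d'', h⟩

omit hP in
theorem poly_zero {S : SE} {d : ℕ} (h : Rep P x z e m S 0 d) {f : ℕ → R → R} (hf : Addi f) :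
    Pool.Agent.Helper805.NucCert.ev x z f (SE.poly S) e m = 0 := by
  cases S with
  | bad => rfl
  | c d' A L => rfl
  | v d' E =>
    obtain ⟨_, _, hE⟩ := h
    show Pool.Agent.Helper805.NucCert.ev x z f E e m = 0
    rw [hE f hf, hf.zero]

theorem rel_zero (hx : x ∈ P 1) (hz : z ∈ P 1) {L : FS} (hL : SRel P L) (dict : List (Option Tr))
    (slots : List ℕ) {f : ℕ → R → R} (hf : Addi f) (hm : m ∈ P (e % 2)) :
    Pool.Agent.Helper805.NucCert.ev x z f (relTri L e dict slots) e m = 0 := by
  choose u hu1 hu2 using rep_slot (P := P) (x := x) (z := z) (e := e) (m := m) hP hx hz hm dict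
  set g : ℕ → SE := fun i => nth SE.bad (List.map SE.arg dict) i with hg
  have h0 : Vl (fun i => SE.par e (g i)) u (dropz (collect (subst e g (nth 0 slots) L))) = 0 := by
    rw [Vl_dropz, Vl_collect, Vl_subst]
    exact hL (fun i => SE.par e (g (nth 0 slots i))) (fun i => u (nth 0 slots i))
      (fun i => hu2 (nth 0 slots i))
  obtain ⟨d, hd⟩ := rep_tot (P := P) (x := x) (z := z) (e := e) (m := m) (g := g) (u := u)
    (p := fun i => SE.par e (g i)) hP hu1 (dropz (collect (subst e g (nth 0 slots) L)))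
  rw [h0] at hd
  exact poly_zero hd hf

theorem Lm_mem {y : R} (hy : y ∈ P 1) (hm : m ∈ P (e % 2)) : Lm y e m ∈ P ((e + 1) % 2) := by
  rw [add_comm]
  exact AddSubgroup.zsmul_mem _ (mul_mem' hP (i := 1) hy hm) _

theorem letter_ev (hx : x ∈ P 1) (hz : z ∈ P 1) (k : ℕ) (hm : m ∈ P (e % 2)) :
    ∃ m' ∈ P ((e + 1) % 2), ∀ F : ℕ → R → R,
      Pool.Agent.Helper805.NucCert.ev x z F (letter k) e m = F (e + 1) m' := by
  rcases k with _ | _ | _ | k
  · exact ⟨m * x, mul_mem' hP hm hx, fun F => ev_lx F e m⟩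
  · exact ⟨Lm x e m, Lm_mem hP hx hm, fun F => ev_ly F e m⟩
  · exact ⟨m * z, mul_mem' hP hm hz, fun F => ev_lp F e m⟩
  · exact ⟨Lm z e m, Lm_mem hP hz hm, fun F => ev_lq F e m⟩

theorem prew_zero (hx : x ∈ P 1) (hz : z ∈ P 1) {t : Tri} {f : ℕ → R → R} (l : List ℕ) :
    ∀ (e : ℕ) (m : R), m ∈ P (e % 2) →
      (∀ m' ∈ P ((e + l.length) % 2), Pool.Agent.Helper805.NucCert.ev x z f t (e + l.length) m' = 0) →
      Pool.Agent.Helper805.NucCert.ev x z f (prew l t) e m = 0 := by
  induction l with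
  | nil => intro e m hm h; exact h m hm
  | cons k l ih =>
    intro e m hm h
    have hp : prew (k :: l) t = Tri.mul (prew l t) (letter k) := rfl
    obtain ⟨m', hm', hF⟩ := letter_ev (e := e) (m := m) hP hx hz k hm
    rw [hp, ev_mul, hF]
    apply ih (e + 1) m' hm'
    intro m'' hm''
    have e1 : e + 1 + l.length = e + (k :: l).length := by rw [List.length_cons]; omega
    rw [e1] at hm'' ⊢
    exact h m'' hm''

omit hP in
theorem sufw_zero {e : ℕ} {m : R} (l : List ℕ) : ∀ t : Tri,
    (∀ f : ℕ → R → R, Addi f → Pool.Agent.Helper805.NucCert.ev x z f t e m = 0) →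
    ∀ f : ℕ → R → R, Addi f → Pool.Agent.Helper805.NucCert.ev x z f (sufw l t) e m = 0 := by
  induction l with
  | nil => intro t h f hf; exact h f hf
  | cons k l ih =>
    intro t h f hf
    have hp : sufw (k :: l) t = sufw l (Tri.mul (letter k) t) := rfl
    rw [hp]
    apply ih _ _ f hf
    intro F hF
    rw [ev_mul]
    exact h _ (ev_addi x z hF (letter k))

end

theorem c2 : S_C2 := by
  intro R _ P x z hP hx hz
  refine ⟨fun L hL e dict slots f hf m hm => rel_zero hP hx hz hL dict slots hf hm, ?_⟩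
  intro l hl f hf m hm
  induction l with
  | nil => rfl
  | cons r l ih =>
    have h : RIs (r :: l) = Tri.add r.tri (RIs l) := rfl
    rw [h, ev_add, ih (fun r' hr' => hl r' (List.mem_cons_of_mem _ hr')), add_zero]
    unfold RI.tri
    rw [ev_smul]
    have h2 : ev x z f (prew r.pre (sufw r.suf (relTri r.L (List.length r.pre) r.dict r.slots))) 0 m = 0 := by
      refine prew_zero hP hx hz r.pre 0 m hm ?_
      intro m' hm'
      rw [zero_add] at hm' ⊢
      exact sufw_zero r.suf _ (fun F hF => rel_zero hP hx hz (hl r List.mem_cons_self) r.dict r.slots hF hm') f hf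
    rw [h2, smul_zero]

end Pool.Agent.W140.TCI
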